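import Pool.Agent.X197.AlgEnt

/-!
# MP_5d7a45_an, Q1: algebraic entropy and invariant uniform discrete subgroups

For every locally compact abelian group `G`, every endomorphism `φ` of `G` and every `φ`-invariant
uniform discrete subgroup `K` of `G`, the algebraic entropy of `φ` equals the algebraic entropy of
the restriction of `φ` to `K`.
-/

set_option autoImplicit false

namespace Pool.Agent.Results.MP_5d7a45_an.InvariantLattice

open Pool.Agent.X197.AlgEnt MeasureTheory

universe u

theorem result {G : Type u} [AddCommGroup G] [TopologicalSpace G] [IsTopologicalAddGroup G]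
    [T2Space G] [LocallyCompactSpace G] [MeasurableSpace G] [BorelSpace G]
    (μ : Measure G) [μ.IsAddHaarMeasure] (φ : G →+ G) (hφ : Continuous φ)
    (K : AddSubgroup G) (hK : ∀ x ∈ K, φ x ∈ K) (hd : DiscreteTopology K)
    (hc : CompactSpace (G ⧸ K)) (ν : Measure K) [ν.IsAddHaarMeasure] :
    hA μ φ = hA ν (res φ K hK) :=
  main μ φ hφ K hK ν

end Pool.Agent.Results.MP_5d7a45_an.InvariantLattice
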